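import Pool.Agent.Helper62.DSH.StC

/-!
# Project DSH, module BRS: `d ⋆ φ = 0` implies `δ φ = 0`
-/

set_option autoImplicit false

open Set Filter Topology MeasureTheory
open Helper62.LH Helper62.DSH
open scoped ContDiff ENNReal

noncomputable section

namespace Pool.Agent.Helper41.DSH

/-- the map `t ↦ (L ↦ (1/k!) ∑ I, t I * eps h I L)` -/
private def lam {n k l : ℕ} (h : k + l = n) : Tn n k →ₗ[ℝ] Tn n l where
  toFun t := fun L => (1 / (k.factorial : ℝ)) * ∑ I : Fin k → Fin n, t I * eps h I L
  map_add' s t := by
    funext L
    simp only [Pi.add_apply, add_mul, Finset.sum_add_distrib, mul_add]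
  map_smul' c t := by
    funext L
    simp only [Pi.smul_apply, smul_eq_mul, RingHom.id_apply]
    rw [show (∑ I : Fin k → Fin n, c * t I * eps h I L) = c * ∑ I : Fin k → Fin n, t I * eps h I L
      from by
        rw [Finset.mul_sum]
        exact Finset.sum_congr rfl fun I _ => by ring]
    ring

private theorem lam_apply {n k l : ℕ} (h : k + l = n) (t : Tn n k) (L : Fin l → Fin n) :
    lam h t L = (1 / (k.factorial : ℝ)) * ∑ I : Fin k → Fin n, t I * eps h I L := rfl

/-- the involution `(I, b) ↦ (I[p→b], I p)` -/
private theorem invol {n k : ℕ} (p : Fin k) (f : (Fin k → Fin n) → Fin n → ℝ) :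
    ∑ I : Fin k → Fin n, ∑ b : Fin n, f I b =
      ∑ I : Fin k → Fin n, ∑ b : Fin n, f (Function.update I p b) (I p) := by
  rw [← Finset.sum_product', ← Finset.sum_product']
  refine Finset.sum_nbij' (fun x : (Fin k → Fin n) × Fin n => (Function.update x.1 p x.2, x.1 p))
    (fun x : (Fin k → Fin n) × Fin n => (Function.update x.1 p x.2, x.1 p)) ?_ ?_ ?_ ?_ ?_
  · intro x _
    simp
  · intro x _
    simp
  · rintro ⟨I, b⟩ _
    simp
  · rintro ⟨I, b⟩ _
    simp
  · rintro ⟨I, b⟩ _
    simp

/-- invariance of `eps` -/
private theorem eps_inv (hInv : TInv) {n k l : ℕ} (h : k + l = n) (A : Fin n → Fin n → ℝ)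
    (hA : ∀ a b, A a b = -A b a) (I : Fin k → Fin n) (L : Fin l → Fin n) :
    ∑ m, ∑ b, A (L m) b * eps h I (Function.update L m b) =
      -∑ p, ∑ b, A (I p) b * eps h (Function.update I p b) L := by
  subst h
  have h1 := hInv (k + l) A hA (Fin.append I L)
  rw [Fin.sum_univ_add] at h1
  have e1 : ∀ (p : Fin k) (b : Fin (k + l)),
      (vdet (fun i => (ee (Function.update (Fin.append I L) (Fin.castAdd l p) b i) : E (k + l)))) =
      eps rfl (Function.update I p b) L := by
    intro p b
    unfold eps ap
    congr 1
    funext i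
    refine Fin.addCases (fun j => ?_) (fun j => ?_) i
    · have e : Fin.cast (rfl : k + l = k + l).symm (Fin.castAdd l j) = Fin.castAdd l j := rfl
      rw [e, Fin.append_left]
      by_cases hj : j = p
      · subst hj
        rw [Function.update_self, Function.update_self]
      · rw [Function.update_of_ne hj, Function.update_of_ne (by
          intro h
          exact hj (Fin.castAdd_injective _ _ h)), Fin.append_left]
    · have e : Fin.cast (rfl : k + l = k + l).symm (Fin.natAdd k j) = Fin.natAdd k j := rfl
      rw [e, Fin.append_right, Function.update_of_ne (by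
        intro h
        have := congrArg Fin.val h
        simp only [Fin.val_natAdd, Fin.val_castAdd] at this
        omega), Fin.append_right]
  have e2 : ∀ (m : Fin l) (b : Fin (k + l)),
      (vdet (fun i => (ee (Function.update (Fin.append I L) (Fin.natAdd k m) b i) : E (k + l)))) =
      eps rfl I (Function.update L m b) := by
    intro m b
    unfold eps ap
    congr 1
    funext i
    refine Fin.addCases (fun j => ?_) (fun j => ?_) i
    · have e : Fin.cast (rfl : k + l = k + l).symm (Fin.castAdd l j) = Fin.castAdd l j := rfl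
      rw [e, Fin.append_left, Function.update_of_ne (by
        intro h
        have := congrArg Fin.val h
        simp only [Fin.val_natAdd, Fin.val_castAdd] at this
        omega), Fin.append_left]
    · have e : Fin.cast (rfl : k + l = k + l).symm (Fin.natAdd k j) = Fin.natAdd k j := rfl
      rw [e, Fin.append_right]
      by_cases hj : j = m
      · subst hj
        rw [Function.update_self, Function.update_self]
      · rw [Function.update_of_ne hj, Function.update_of_ne (by
          intro h
          apply hj
          apply Fin.ext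
          have := congrArg Fin.val h
          simp only [Fin.val_natAdd] at this
          omega), Fin.append_right]
  simp only [Fin.append_left, Fin.append_right, e1, e2] at h1
  linarith

/-- the star commutes with skew derivations -/
private theorem lam_rho (hInv : TInv) {n k l : ℕ} (h : k + l = n) (A : Fin n → Fin n → ℝ)
    (hA : ∀ a b, A a b = -A b a) (t : Tn n k) : rho A (lam h t) = lam h (rho A t) := by
  funext L
  have e1 : rho A (lam h t) L = (1 / (k.factorial : ℝ)) * ∑ I : Fin k → Fin n,
      t I * ∑ m, ∑ b, A (L m) b * eps h I (Function.update L m b) := by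
    simp only [rho, lam_apply]
    rw [Finset.mul_sum]
    have e2 : ∀ (m : Fin l) (b : Fin n), A (L m) b * (1 / (k.factorial : ℝ) *
        ∑ I : Fin k → Fin n, t I * eps h I (Function.update L m b)) =
        ∑ I : Fin k → Fin n, 1 / (k.factorial : ℝ) *
          (t I * (A (L m) b * eps h I (Function.update L m b))) := by
      intro m b
      rw [Finset.mul_sum, Finset.mul_sum]
      exact Finset.sum_congr rfl fun I _ => by ring
    simp only [e2]
    rw [Finset.sum_congr rfl fun m _ => Finset.sum_comm, Finset.sum_comm]
    refine Finset.sum_congr rfl fun I _ => ?_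
    simp only [Finset.mul_sum]
  rw [e1, lam_apply]
  congr 1
  have e3 : ∀ I : Fin k → Fin n,
      t I * ∑ m, ∑ b, A (L m) b * eps h I (Function.update L m b) =
      -∑ p, ∑ b, t I * (A (I p) b * eps h (Function.update I p b) L) := by
    intro I
    rw [eps_inv hInv h A hA, mul_neg]
    simp only [Finset.mul_sum]
  simp only [e3]
  rw [Finset.sum_neg_distrib, Finset.sum_comm]
  have e4 : ∀ p : Fin k, ∑ I : Fin k → Fin n, ∑ b,
      t I * (A (I p) b * eps h (Function.update I p b) L) =
      -∑ I : Fin k → Fin n, ∑ b, A (I p) b * t (Function.update I p b) * eps h I L := by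
    intro p
    rw [invol p (fun I b => t I * (A (I p) b * eps h (Function.update I p b) L)),
      ← Finset.sum_neg_distrib]
    refine Finset.sum_congr rfl fun I _ => ?_
    rw [← Finset.sum_neg_distrib]
    refine Finset.sum_congr rfl fun b _ => ?_
    simp only [Function.update_self, Function.update_idem, Function.update_eq_self]
    rw [hA b (I p)]
    ring
  simp only [e4]
  rw [Finset.sum_neg_distrib, neg_neg, Finset.sum_comm]
  refine Finset.sum_congr rfl fun I _ => ?_
  simp only [rho, Finset.sum_mul]

/-- BRS (`d ⋆ φ = 0` implies `δ φ = 0`). -/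
theorem hBrs (hCfr : StCfr) (hEpf : StEpf) (hDer : TDer) (hInv : TInv) (hSta : TSta)
    (hBrc : TBrc) : TBrs := by
  intro n k l h g Γ F G hg hΓ hF φ τ hφ hτ hst hd x
  obtain ⟨hsω, haω, _, _⟩ := hBrc n (k + 1) g Γ F G hg hΓ hF φ hφ
  obtain ⟨_, _, _, hdT⟩ := hBrc n l g Γ F G hg hΓ hF τ hτ
  -- components of the star
  have hT : cp F τ = fun y => lam h (cp F φ y) := by
    funext y L
    have h' : l + (k + 1) = n := by omega
    obtain ⟨_, he2, _, he4⟩ := hEpf n (k + 1) l h h'
    obtain ⟨A, hA⟩ := he4 (fun b => F (L b) y)
    have h1 := hst y (fun b => F (L b) y)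
    have h2 := hCfr n g y (fun a => F a y) (hF.onb y) (k + 1) A.toMultilinearMap
      (φ y).toMultilinearMap
    have h3 : ∀ (I J : Fin (k + 1) → Fin n), (∏ a, gi g y (I a) (J a)) *
        (φ y (fun a => ee (J a)) * vdet (ap h (fun a => ee (I a)) (fun b => F (L b) y))) =
        (∏ a, gi g y (I a) (J a)) * (A.toMultilinearMap (fun a => ee (I a)) *
          (φ y).toMultilinearMap (fun a => ee (J a))) := by
      intro I J
      have e1 : A.toMultilinearMap (fun a => ee (I a)) =
          vdet (ap h (fun a => ee (I a)) (fun b => F (L b) y)) := hA _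
      have e2 : (φ y).toMultilinearMap (fun a => ee (J a)) = φ y (fun a => ee (J a)) := rfl
      rw [e1, e2]
      ring
    simp only [h3] at h1
    rw [h2] at h1
    have h4 : ∀ I : Fin (k + 1) → Fin n, A.toMultilinearMap (fun a => F (I a) y) *
        (φ y).toMultilinearMap (fun a => F (I a) y) =
        vdet (fun a => F a y) * (cp F φ y I * eps h I L) := by
      intro I
      have e1 : A.toMultilinearMap (fun a => F (I a) y) =
          vdet (ap h (fun a => F (I a) y) (fun b => F (L b) y)) := hA _
      have e2 : (φ y).toMultilinearMap (fun a => F (I a) y) = cp F φ y I := rfl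
      rw [e1, e2, he2 (fun a => F a y) I L]
      ring
    simp only [h4] at h1
    rw [← Finset.mul_sum] at h1
    change τ y (fun b => F (L b) y) = _
    rw [h1, lam_apply]
    have h5 := hF.ori y
    linear_combination (1 / ((k + 1).factorial : ℝ) * ∑ I : Fin (k + 1) → Fin n,
      cp F φ y I * eps h I L) * h5
  -- covariant derivative
  have hcv : ∀ a, cv F G (cp F τ) x a = lam h (cv F G (cp F φ) x a) := by
    intro a
    unfold cv
    rw [hT, map_sub, lam_rho hInv h (G x a) (fun b c => hF.anti x a b c)]
    congr 1
    have h1 : (fun y => lam h (cp F φ y)) =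
        fun y => (LinearMap.toContinuousLinearMap (lam (l := l) h)) (cp F φ y) := rfl
    have h2 : DifferentiableAt ℝ (cp F φ) x := (hsω.differentiable (by simp)) x
    rw [h1]
    have h3 := ((LinearMap.toContinuousLinearMap (lam (l := l) h)).hasFDerivAt.comp x
      h2.hasFDerivAt).fderiv
    have h4 : fderiv ℝ (fun y => (LinearMap.toContinuousLinearMap (lam (l := l) h)) (cp F φ y)) x =
        (LinearMap.toContinuousLinearMap (lam (l := l) h)).comp (fderiv ℝ (cp F φ) x) := h3
    rw [h4]
    rfl
  -- the equation
  have heq : ∀ L : Fin (l + 1) → Fin n, ∑ c : Fin (l + 1), (-1) ^ (c : ℕ) *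
      (∑ I : Fin (k + 1) → Fin n, cv F G (cp F φ) x (L c) I *
        eps h I (fun i => L (c.succAbove i))) = 0 := by
    intro L
    have h1 := congrFun (hdT x) L
    have h2 : cp F (fun y => extDeriv τ y) x L = 0 := by
      change extDeriv τ x (fun k => F (L k) x) = 0
      rw [hd]
      rfl
    rw [h2] at h1
    unfold dF wd at h1
    simp only [hcv, lam_apply] at h1
    have h3 : ((k + 1).factorial : ℝ) ≠ 0 := by exact_mod_cast Nat.factorial_ne_zero _
    have h4 : ∑ c : Fin (l + 1), (-1 : ℝ) ^ (c : ℕ) * (1 / ((k + 1).factorial : ℝ) *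
        ∑ I : Fin (k + 1) → Fin n, cv F G (cp F φ) x (L c) I *
          eps h I (fun i => L (c.succAbove i))) = (1 / ((k + 1).factorial : ℝ)) *
        ∑ c : Fin (l + 1), (-1) ^ (c : ℕ) * (∑ I : Fin (k + 1) → Fin n,
          cv F G (cp F φ) x (L c) I * eps h I (fun i => L (c.succAbove i))) := by
      rw [Finset.mul_sum]
      exact Finset.sum_congr rfl fun c _ => by ring
    rw [h4] at h1
    rcases mul_eq_zero.1 h1 with h5 | h5
    · exact absurd h5 (one_div_ne_zero h3)
    · exact h5
  have hfin := hSta n k l h (fun a => cv F G (cp F φ) x a)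
    ((hDer n (k + 1) g Γ F G hF).2.2.1 (cp F φ) hsω haω |>.1 x) heq
  funext K
  have h6 : fderiv ℝ (fun _ : E n => (0 : ℝ)) x = 0 := by simp
  unfold dlF
  rw [h6]
  simp only [zero_apply, zero_smul, sub_zero]
  rw [Finset.sum_apply]
  exact hfin K

end Pool.Agent.Helper41.DSH
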